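import Pool.Agent.Q298.BE.Emb
import Mathlib.Data.ENat.Basic
import Mathlib.Order.SuccPred.Basic

set_option autoImplicit false

/-!
Construction of the structures with the extension property over a given base.
-/

namespace Pool.Agent.Q298.BE

/-- order, levels and bits on the natural numbers -/
structure Stg where
  R : ℕ → ℕ → Prop
  lev : ℕ → ℕ∞
  bit : ℕ → Bool

/-- data of a new element -/
structure Dat where
  I : Finset ℕ
  O : Finset ℕ
  l : ℕ∞
  b : Bool

/-- the trivial data -/
def Dat.triv : Dat := ⟨∅, ∅, 0, false⟩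

/-- adding the element `n` -/
def Stg.ext (n : ℕ) (G : Stg) (d : Dat) : Stg where
  R := fun x y => G.R x y ∨ (y = n ∧ x < n ∧ ∃ i ∈ d.I, x = i ∨ G.R x i) ∨
    (x = n ∧ y < n ∧ ∃ o ∈ d.O, o = y ∨ G.R o y)
  lev := fun x => if x = n then d.l else G.lev x
  bit := fun x => if x = n then d.b else G.bit x

/-- a correct stage -/
structure Good (n : ℕ) (G : Stg) : Prop where
  dom : ∀ x y, G.R x y → x < n ∧ y < n
  irr : ∀ x, ¬ G.R x x
  tr : ∀ x y z, G.R x y → G.R y z → G.R x z
  lv : ∀ x y, G.R x y → G.lev x ≤ G.lev y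
  bt : ∀ x y, G.R x y → G.bit x = G.bit y

/-- consistent data -/
structure Valid (n : ℕ) (G : Stg) (d : Dat) : Prop where
  hI : ∀ i ∈ d.I, i < n
  hO : ∀ o ∈ d.O, o < n
  io : ∀ i ∈ d.I, ∀ o ∈ d.O, G.R i o
  li : ∀ i ∈ d.I, G.lev i ≤ d.l ∧ G.bit i = d.b
  lo : ∀ o ∈ d.O, d.l ≤ G.lev o ∧ G.bit o = d.b

theorem triv_valid (n : ℕ) (G : Stg) : Valid n G Dat.triv :=
  ⟨by simp [Dat.triv], by simp [Dat.triv], by simp [Dat.triv], by simp [Dat.triv],
    by simp [Dat.triv]⟩

theorem ext_good {n : ℕ} {G : Stg} {d : Dat} (h : Good n G) (hd : Valid n G d) :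
    Good (n + 1) (G.ext n d) := by
  have hl : ∀ x < n, (G.ext n d).lev x = G.lev x := fun x hx => if_neg (by omega)
  have hln : (G.ext n d).lev n = d.l := if_pos rfl
  have hb : ∀ x < n, (G.ext n d).bit x = G.bit x := fun x hx => if_neg (by omega)
  have hbn : (G.ext n d).bit n = d.b := if_pos rfl
  have hnot : ∀ x y, G.R x y → x ≠ n ∧ y ≠ n := fun x y hxy => by
    have := h.dom x y hxy
    omega
  refine ⟨?_, ?_, ?_, ?_, ?_⟩
  · rintro x y (h1 | ⟨rfl, h1, -⟩ | ⟨rfl, h1, -⟩)
    · have := h.dom x y h1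
      omega
    · omega
    · omega
  · rintro x (h1 | ⟨rfl, h1, -⟩ | ⟨rfl, h1, -⟩)
    · exact h.irr x h1
    · omega
    · omega
  · rintro x y z (h1 | ⟨rfl, h1, i, hi, h2⟩ | ⟨rfl, h1, o, ho, h2⟩)
      (k1 | ⟨rfl, k1, i', hi', k2⟩ | ⟨e, k1, o', ho', k2⟩)
    · exact Or.inl (h.tr _ _ _ h1 k1)
    · refine Or.inr (Or.inl ⟨rfl, (h.dom _ _ h1).1, i', hi', Or.inr ?_⟩)
      rcases k2 with rfl | k2
      · exact h1
      · exact h.tr _ _ _ h1 k2
    · exact absurd e (hnot _ _ h1).2
    · exact absurd rfl (hnot _ _ k1).1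
    · omega
    · refine Or.inl ?_
      have h3 := hd.io i hi o' ho'
      have h4 : G.R x o' := by
        rcases h2 with rfl | h2
        · exact h3
        · exact h.tr _ _ _ h2 h3
      rcases k2 with rfl | k2
      · exact h4
      · exact h.tr _ _ _ h4 k2
    · refine Or.inr (Or.inr ⟨rfl, (h.dom _ _ k1).2, o, ho, Or.inr ?_⟩)
      rcases h2 with rfl | h2
      · exact k1
      · exact h.tr _ _ _ h2 k1
    · exfalso
      have h3 := hd.io i' hi' o ho
      have h4 : G.R y o := by
        rcases k2 with rfl | k2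
        · exact h3
        · exact h.tr _ _ _ k2 h3
      rcases h2 with rfl | h2
      · exact h.irr _ h4
      · exact h.irr _ (h.tr _ _ _ h4 h2)
    · omega
  · rintro x y (h1 | ⟨rfl, h1, i, hi, h2⟩ | ⟨rfl, h1, o, ho, h2⟩)
    · rw [hl x (h.dom _ _ h1).1, hl y (h.dom _ _ h1).2]
      exact h.lv _ _ h1
    · rw [hl x h1, hln]
      rcases h2 with rfl | h2
      · exact (hd.li _ hi).1
      · exact (h.lv _ _ h2).trans (hd.li _ hi).1
    · rw [hl y h1, hln]
      rcases h2 with rfl | h2
      · exact (hd.lo _ ho).1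
      · exact (hd.lo _ ho).1.trans (h.lv _ _ h2)
  · rintro x y (h1 | ⟨rfl, h1, i, hi, h2⟩ | ⟨rfl, h1, o, ho, h2⟩)
    · rw [hb x (h.dom _ _ h1).1, hb y (h.dom _ _ h1).2]
      exact h.bt _ _ h1
    · rw [hb x h1, hbn]
      rcases h2 with rfl | h2
      · exact (hd.li _ hi).2
      · exact (h.bt _ _ h2).trans (hd.li _ hi).2
    · rw [hb y h1, hbn]
      rcases h2 with rfl | h2
      · exact (hd.lo _ ho).2.symm
      · exact (hd.lo _ ho).2.symm.trans (h.bt _ _ h2)

/-- The base: an order with levels and bits. -/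
structure BOk (B : Stg) : Prop where
  irr : ∀ x, ¬ B.R x x
  tr : ∀ x y z, B.R x y → B.R y z → B.R x z
  lv : ∀ x y, B.R x y → B.lev x ≤ B.lev y
  bt : ∀ x y, B.R x y → B.bit x = B.bit y

/-- an enumeration of the data, with a parameter for repetitions -/
theorem exists_dec : ∃ f : ℕ → (Finset ℕ × Finset ℕ × ℕ∞ × Bool) × ℕ, Function.Surjective f :=
  exists_surjective_nat _

/-- the enumeration of the data -/
noncomputable def dec (n : ℕ) : Dat :=
  let p := (exists_dec.choose n).1
  ⟨p.1, p.2.1, p.2.2.1, p.2.2.2⟩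

theorem dec_large (d : Dat) (m : ℕ) : ∃ k, m ≤ k ∧ dec k = d := by
  by_contra hcon
  push Not at hcon
  choose g hg using fun j : ℕ => exists_dec.choose_spec ((d.I, d.O, d.l, d.b), j)
  have hinj : Function.Injective g := by
    intro j j' h
    have h1 := hg j
    rw [h, hg j'] at h1
    exact (Prod.mk.inj h1).2.symm
  have hd : ∀ j, dec (g j) = d := by
    intro j
    unfold dec
    rw [hg j]
  have hlt : ∀ j, g j < m := by
    intro j
    by_contra h
    exact hcon (g j) (by omega) (hd j)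
  have := Finite.of_injective (fun j : ℕ => (⟨g j, hlt j⟩ : Fin m)) (fun j j' h => by
    exact hinj (congrArg Fin.val h))
  exact not_finite ℕ

open Classical in
/-- the data of the element `n` -/
noncomputable def step (B : Stg) (n : ℕ) (G : Stg) : Dat :=
  if n % 2 = 0 then
    ⟨((Finset.range (n / 2)).filter (fun j => B.R j (n / 2))).image (fun j => 2 * j),
      ((Finset.range (n / 2)).filter (fun j => B.R (n / 2) j)).image (fun j => 2 * j),
      B.lev (n / 2), B.bit (n / 2)⟩
  else if Valid n G (dec (n / 2)) ∧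
    ((dec (n / 2)).l = ⊤ → ∃ i ∈ (dec (n / 2)).I, G.lev i = ⊤) then dec (n / 2) else Dat.triv

/-- the stages -/
noncomputable def stage (B : Stg) : ℕ → Stg
  | 0 => ⟨fun _ _ => False, fun _ => 0, fun _ => false⟩
  | n + 1 => (stage B n).ext n (step B n (stage B n))

/-- the data of the element `n` -/
noncomputable def dat (B : Stg) (n : ℕ) : Dat := step B n (stage B n)

theorem stage_succ (B : Stg) (n : ℕ) : stage B (n + 1) = (stage B n).ext n (dat B n) := rfl

theorem mem_evI (B : Stg) (m i : ℕ) :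
    i ∈ (dat B (2 * m)).I ↔ ∃ j < m, B.R j m ∧ i = 2 * j := by
  classical
  unfold dat step
  rw [if_pos (by omega), show 2 * m / 2 = m by omega]
  simp only [Finset.mem_image, Finset.mem_filter, Finset.mem_range]
  constructor
  · rintro ⟨j, ⟨h1, h2⟩, rfl⟩
    exact ⟨j, h1, h2, rfl⟩
  · rintro ⟨j, h1, h2, rfl⟩
    exact ⟨j, ⟨h1, h2⟩, rfl⟩

theorem mem_evO (B : Stg) (m i : ℕ) :
    i ∈ (dat B (2 * m)).O ↔ ∃ j < m, B.R m j ∧ i = 2 * j := by
  classical
  unfold dat step
  rw [if_pos (by omega), show 2 * m / 2 = m by omega]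
  simp only [Finset.mem_image, Finset.mem_filter, Finset.mem_range]
  constructor
  · rintro ⟨j, ⟨h1, h2⟩, rfl⟩
    exact ⟨j, h1, h2, rfl⟩
  · rintro ⟨j, h1, h2, rfl⟩
    exact ⟨j, ⟨h1, h2⟩, rfl⟩

theorem ev_l (B : Stg) (m : ℕ) : (dat B (2 * m)).l = B.lev m := by
  unfold dat step
  rw [if_pos (by omega), show 2 * m / 2 = m by omega]

theorem ev_b (B : Stg) (m : ℕ) : (dat B (2 * m)).b = B.bit m := by
  unfold dat step
  rw [if_pos (by omega), show 2 * m / 2 = m by omega]

/-- agreement with the base -/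
def Agr (B : Stg) (n : ℕ) : Prop := ∀ j k, 2 * j < n → 2 * k < n →
    ((stage B n).R (2 * j) (2 * k) ↔ B.R j k) ∧ (stage B n).lev (2 * j) = B.lev j ∧
      (stage B n).bit (2 * j) = B.bit j

theorem val (B : Stg) (hB : BOk B) (n : ℕ) (hb : Agr B n) : Valid n (stage B n) (dat B n) := by
  rcases Nat.even_or_odd' n with ⟨m, rfl | rfl⟩
  · refine ⟨?_, ?_, ?_, ?_, ?_⟩
    · intro i hi
      obtain ⟨j, h1, h2, rfl⟩ := (mem_evI B m i).1 hi
      omega
    · intro i hi
      obtain ⟨j, h1, h2, rfl⟩ := (mem_evO B m i).1 hi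
      omega
    · intro i hi o ho
      obtain ⟨j, h1, h2, rfl⟩ := (mem_evI B m i).1 hi
      obtain ⟨k, h3, h4, rfl⟩ := (mem_evO B m o).1 ho
      exact (hb j k (by omega) (by omega)).1.2 (hB.tr _ _ _ h2 h4)
    · intro i hi
      obtain ⟨j, h1, h2, rfl⟩ := (mem_evI B m i).1 hi
      rw [ev_l, ev_b, (hb j j (by omega) (by omega)).2.1, (hb j j (by omega) (by omega)).2.2]
      exact ⟨hB.lv _ _ h2, hB.bt _ _ h2⟩
    · intro i hi
      obtain ⟨j, h1, h2, rfl⟩ := (mem_evO B m i).1 hi
      rw [ev_l, ev_b, (hb j j (by omega) (by omega)).2.1, (hb j j (by omega) (by omega)).2.2]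
      exact ⟨hB.lv _ _ h2, (hB.bt _ _ h2).symm⟩
  · unfold dat step
    rw [if_neg (by omega)]
    split_ifs with h1
    · exact h1.1
    · exact triv_valid _ _

theorem inv (B : Stg) (hB : BOk B) (n : ℕ) : Good n (stage B n) ∧ Agr B n := by
  induction n with
  | zero =>
    refine ⟨⟨fun _ _ h => h.elim, fun _ h => h, fun _ _ _ h => h.elim, fun _ _ h => h.elim,
      fun _ _ h => h.elim⟩, fun j k h => by omega⟩
  | succ n ih =>
    obtain ⟨hG, hb⟩ := ih
    have hv := val B hB n hb
    refine ⟨?_, ?_⟩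
    · rw [stage_succ]
      exact ext_good hG hv
    unfold Agr
    rw [stage_succ]
    rcases Nat.even_or_odd' n with ⟨m, rfl | rfl⟩
    · refine fun j k hj hk => ⟨?_, ?_, ?_⟩
      · constructor
        · rintro (h1 | ⟨h1, h2, i, hi, h3⟩ | ⟨h1, h2, o, ho, h3⟩)
          · exact (hb j k (hG.dom _ _ h1).1 (hG.dom _ _ h1).2).1.1 h1
          · obtain rfl : k = m := by omega
            obtain ⟨j', h4, h5, rfl⟩ := (mem_evI B k i).1 hi
            rcases h3 with h3 | h3
            · obtain rfl : j = j' := by omega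
              exact h5
            · exact hB.tr _ _ _ ((hb j j' (by omega) (by omega)).1.1 h3) h5
          · obtain rfl : j = m := by omega
            obtain ⟨j', h4, h5, rfl⟩ := (mem_evO B j o).1 ho
            rcases h3 with h3 | h3
            · obtain rfl : k = j' := by omega
              exact h5
            · exact hB.tr _ _ _ h5 ((hb j' k (by omega) (by omega)).1.1 h3)
        · intro h1
          have hjk : j ≠ k := by
            rintro rfl
            exact hB.irr _ h1
          rcases Nat.lt_or_ge k m with h2 | h2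
          · rcases Nat.lt_or_ge j m with h3 | h3
            · exact Or.inl ((hb j k (by omega) (by omega)).1.2 h1)
            · obtain rfl : j = m := by omega
              exact Or.inr (Or.inr ⟨rfl, by omega, 2 * k, (mem_evO B _ _).2 ⟨k, h2, h1, rfl⟩,
                Or.inl rfl⟩)
          · obtain rfl : k = m := by omega
            exact Or.inr (Or.inl ⟨rfl, by omega, 2 * j, (mem_evI B _ _).2
              ⟨j, by omega, h1, rfl⟩, Or.inl rfl⟩)
      · show (if 2 * j = 2 * m then _ else _) = _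
        split_ifs with h1
        · obtain rfl : j = m := by omega
          exact ev_l B j
        · exact (hb j j (by omega) (by omega)).2.1
      · show (if 2 * j = 2 * m then _ else _) = _
        split_ifs with h1
        · obtain rfl : j = m := by omega
          exact ev_b B j
        · exact (hb j j (by omega) (by omega)).2.2
    · refine fun j k hj hk => ⟨?_, ?_, ?_⟩
      · rw [← (hb j k (by omega) (by omega)).1]
        constructor
        · rintro (h1 | ⟨h1, -⟩ | ⟨h1, -⟩)
          · exact h1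
          · omega
          · omega
        · exact Or.inl
      · show (if 2 * j = 2 * m + 1 then _ else _) = _
        rw [if_neg (by omega)]
        exact (hb j j (by omega) (by omega)).2.1
      · show (if 2 * j = 2 * m + 1 then _ else _) = _
        rw [if_neg (by omega)]
        exact (hb j j (by omega) (by omega)).2.2

/-- the data of odd elements -/
theorem dat_odd (B : Stg) (m : ℕ) (h : Valid (2 * m + 1) (stage B (2 * m + 1)) (dec m))
    (h' : (dec m).l = ⊤ → ∃ i ∈ (dec m).I, (stage B (2 * m + 1)).lev i = ⊤) :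
    dat B (2 * m + 1) = dec m := by
  unfold dat step
  rw [if_neg (by omega), show (2 * m + 1) / 2 = m by omega, if_pos ⟨h, h'⟩]

theorem dat_top (B : Stg) (m : ℕ) (h : (dat B (2 * m + 1)).l = ⊤) :
    ∃ i ∈ (dat B (2 * m + 1)).I, (stage B (2 * m + 1)).lev i = ⊤ := by
  unfold dat step at *
  rw [if_neg (by omega)] at *
  split_ifs at * with h1
  · exact h1.2 h
  · exact absurd h (by simp [Dat.triv])

/-! ### the limit -/

theorem stage_R (B : Stg) {n m x y : ℕ} (hx : x < n) (hy : y < n) (hm : n ≤ m) :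
    (stage B m).R x y ↔ (stage B n).R x y := by
  induction m, hm using Nat.le_induction with
  | base => exact Iff.rfl
  | succ m hm ih =>
    rw [stage_succ, ← ih]
    constructor
    · rintro (h1 | ⟨h1, -⟩ | ⟨h1, -⟩)
      · exact h1
      · omega
      · omega
    · exact Or.inl

theorem stage_lev (B : Stg) {n m x : ℕ} (hx : x < n) (hm : n ≤ m) :
    (stage B m).lev x = (stage B n).lev x ∧ (stage B m).bit x = (stage B n).bit x := by
  induction m, hm using Nat.le_induction with
  | base => exact ⟨rfl, rfl⟩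
  | succ m hm ih =>
    rw [stage_succ, ← ih.1, ← ih.2]
    exact ⟨if_neg (by omega), if_neg (by omega)⟩

/-- the limit -/
noncomputable def lim (B : Stg) : Stg where
  R := fun x y => (stage B (max x y + 1)).R x y
  lev := fun x => (stage B (x + 1)).lev x
  bit := fun x => (stage B (x + 1)).bit x

theorem lim_R (B : Stg) {n x y : ℕ} (hx : x < n) (hy : y < n) :
    (lim B).R x y ↔ (stage B n).R x y :=
  (stage_R B (n := max x y + 1) (m := n) (by omega) (by omega) (by omega)).symm

theorem lim_lev (B : Stg) {n x : ℕ} (hx : x < n) : (lim B).lev x = (stage B n).lev x :=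
  (stage_lev B (n := x + 1) (m := n) (by omega) (by omega)).1.symm

theorem lim_bit (B : Stg) {n x : ℕ} (hx : x < n) : (lim B).bit x = (stage B n).bit x :=
  (stage_lev B (n := x + 1) (m := n) (by omega) (by omega)).2.symm

theorem good_ok {n : ℕ} (B : Stg) (hB : BOk B) : Good n (stage B n) := (inv B hB n).1

/-- relations of a new element -/
theorem lim_new (B : Stg) (hB : BOk B) {n x : ℕ} (hx : x < n) :
    ((lim B).R x n ↔ ∃ i ∈ (dat B n).I, x = i ∨ (lim B).R x i) ∧
    ((lim B).R n x ↔ ∃ o ∈ (dat B n).O, o = x ∨ (lim B).R o x) ∧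
    (lim B).lev n = (dat B n).l ∧ (lim B).bit n = (dat B n).b := by
  classical
  have hv : Valid n (stage B n) (dat B n) := val B hB n (inv B hB n).2
  have hG := good_ok (n := n) B hB
  refine ⟨?_, ?_, ?_, ?_⟩
  · rw [lim_R B (n := n + 1) (by omega) (by omega), stage_succ]
    constructor
    · rintro (h1 | ⟨-, h1, i, hi, h2⟩ | ⟨h1, -⟩)
      · have := hG.dom _ _ h1
        omega
      · refine ⟨i, hi, h2.imp_right fun h3 => ?_⟩
        exact (lim_R B (hG.dom _ _ h3).1 (hG.dom _ _ h3).2).2 h3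
      · omega
    · rintro ⟨i, hi, h2⟩
      refine Or.inr (Or.inl ⟨rfl, hx, i, hi, h2.imp_right fun h3 => ?_⟩)
      exact (lim_R B hx (hv.hI i hi)).1 h3
  · rw [lim_R B (n := n + 1) (by omega) (by omega), stage_succ]
    constructor
    · rintro (h1 | ⟨h1, -⟩ | ⟨-, h1, i, hi, h2⟩)
      · have := hG.dom _ _ h1
        omega
      · omega
      · refine ⟨i, hi, h2.imp_right fun h3 => ?_⟩
        exact (lim_R B (hG.dom _ _ h3).1 (hG.dom _ _ h3).2).2 h3
    · rintro ⟨i, hi, h2⟩
      refine Or.inr (Or.inr ⟨rfl, hx, i, hi, h2.imp_right fun h3 => ?_⟩)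
      exact (lim_R B (hv.hO i hi) hx).1 h3
  · rw [lim_lev B (n := n + 1) (by omega), stage_succ]
    exact if_pos rfl
  · rw [lim_bit B (n := n + 1) (by omega), stage_succ]
    exact if_pos rfl

end Pool.Agent.Q298.BE
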