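import Mathlib.ModelTheory.Satisfiability
import Mathlib.ModelTheory.ElementaryMaps
import Mathlib.Data.Finite.Sum
import Mathlib.Tactic

set_option autoImplicit false

/-!
Partial orders with levels: language, diagrams, the extension property and its consequences.
-/

namespace Pool.Agent.Q298.BE

open FirstOrder FirstOrder.Language

/-- The relation symbols: two kinds of unary predicates and an order. -/
inductive Rel : ℕ → Type
  | S : Rel 1
  | U (n : ℕ) : Rel 1
  | lt : Rel 2

/-- The language. -/
def LL : Language.{0, 0} := ⟨fun _ => Empty, Rel⟩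

instance : LL.IsRelational := fun _ => inferInstanceAs (IsEmpty Empty)

/-- The interpretations of the relation symbols. -/
structure LP (M : Type) where
  lt : M → M → Prop
  S : M → Prop
  U : ℕ → M → Prop

/-- The axioms. -/
structure LP.Ok {M : Type} (A : LP M) : Prop where
  irr : ∀ x, ¬ A.lt x x
  tr : ∀ x y z, A.lt x y → A.lt y z → A.lt x z
  sc : ∀ x y, A.lt x y → (A.S x ↔ A.S y)
  um : ∀ n x, A.U (n + 1) x → A.U n x
  uu : ∀ n x y, A.lt x y → A.U n x → A.U n y

/-- The structure given by the interpretations. -/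
@[reducible] def LP.str {M : Type} (A : LP M) : LL.Structure M where
  funMap := fun {n} f => (isEmptyElim f : (Fin n → M) → M)
  RelMap := fun {n} r => match n, r with
    | _, Rel.S => fun v => A.S (v 0)
    | _, Rel.U k => fun v => A.U k (v 0)
    | _, Rel.lt => fun v => A.lt (v 0) (v 1)

/-- The interpretations of the relation symbols of a structure. -/
def ofS {M : Type} (T : LL.Structure M) : LP M where
  lt := fun x y => @Structure.RelMap LL M T 2 Rel.lt ![x, y]
  S := fun x => @Structure.RelMap LL M T 1 Rel.S ![x]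
  U := fun k x => @Structure.RelMap LL M T 1 (Rel.U k) ![x]

theorem str_ofS {M : Type} (T : LL.Structure M) : (ofS T).str = T := by
  refine Structure.ext ?_ ?_
  · funext n f
    exact (IsEmpty.elim (inferInstanceAs (IsEmpty Empty)) f)
  · funext n r v
    cases r with
    | S =>
      show @Structure.RelMap LL M T 1 Rel.S ![v 0] = _
      congr 1
      funext i
      rw [Subsingleton.elim i 0]
      rfl
    | U k =>
      show @Structure.RelMap LL M T 1 (Rel.U k) ![v 0] = _
      congr 1
      funext i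
      rw [Subsingleton.elim i 0]
      rfl
    | lt =>
      show @Structure.RelMap LL M T 2 Rel.lt ![v 0, v 1] = _
      congr 1
      funext i
      fin_cases i <;> rfl

theorem ofS_str {M : Type} (A : LP M) : ofS A.str = A := rfl

/-- Two families of elements have the same diagram, in the language with `n` of the unary
predicates. -/
def SameD {M N : Type} (n : ℕ) (A : LP M) (B : LP N) {ι : Type} (x : ι → M) (y : ι → N) : Prop :=
  ∀ i j, (x i = x j ↔ y i = y j) ∧ (A.lt (x i) (x j) ↔ B.lt (y i) (y j)) ∧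
    (A.S (x i) ↔ B.S (y i)) ∧ ∀ k < n, (A.U k (x i) ↔ B.U k (y i))

variable {M N : Type} {A : LP M} {B : LP N} {ι κ : Type}

theorem SameD.comp {n : ℕ} {x : ι → M} {y : ι → N} (h : SameD n A B x y) (f : κ → ι) :
    SameD n A B (x ∘ f) (y ∘ f) := fun i j => h (f i) (f j)

theorem SameD.mono {n m : ℕ} {x : ι → M} {y : ι → N} (h : SameD n A B x y) (hm : m ≤ n) :
    SameD m A B x y := fun i j =>
  ⟨(h i j).1, (h i j).2.1, (h i j).2.2.1, fun k hk => (h i j).2.2.2 k (lt_of_lt_of_le hk hm)⟩

theorem SameD.symm {n : ℕ} {x : ι → M} {y : ι → N} (h : SameD n A B x y) : SameD n B A y x :=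
  fun i j => ⟨(h i j).1.symm, (h i j).2.1.symm, (h i j).2.2.1.symm,
    fun k hk => ((h i j).2.2.2 k hk).symm⟩

theorem SameD.trans {P : Type} {C : LP P} {n : ℕ} {x : ι → M} {y : ι → N} {z : ι → P}
    (h : SameD n A B x y) (h' : SameD n B C y z) : SameD n A C x z :=
  fun i j => ⟨(h i j).1.trans (h' i j).1, (h i j).2.1.trans (h' i j).2.1,
    (h i j).2.2.1.trans (h' i j).2.2.1,
    fun k hk => ((h i j).2.2.2 k hk).trans ((h' i j).2.2.2 k hk)⟩

theorem SameD.refl {n : ℕ} (x : ι → M) : SameD n A A x x :=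
  fun _ _ => ⟨Iff.rfl, Iff.rfl, Iff.rfl, fun _ _ => Iff.rfl⟩

/-- one more element -/
def ex1 (x : ι → M) (b : M) : Option ι → M := fun o => o.elim b x

/-- The extension property. -/
structure EP (B : LP N) : Prop where
  ok : B.Ok
  ext : ∀ (n : ℕ) (ι : Type) [Finite ι] (M : Type) (A : LP M), A.Ok → ∀ (a : ι → M) (b : M)
    (z : ι → N), SameD n A B a z → ∃ y, SameD n A B (ex1 a b) (ex1 z y)

/-! ### quantifier elimination -/

theorem snoc_ex1 {α : Type} {r : ℕ} (v : α → M) (xs : Fin r → M) (b : M) :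
    (Sum.elim v (Fin.snoc xs b : Fin (r + 1) → M)) =
      ex1 (Sum.elim v xs) b ∘ (Sum.elim (fun i => some (Sum.inl i))
        (fun i => Fin.lastCases (motive := fun _ => Option (α ⊕ Fin r)) none
          (fun j => some (Sum.inr j)) i)) := by
  funext s
  rcases s with i | i
  · rfl
  · refine Fin.lastCases ?_ (fun j => ?_) i
    · simp [ex1]
    · simp [ex1]

/-- Truth of a formula depends only on the diagram. -/
theorem qe {α : Type} [Finite α] {r : ℕ} (φ : LL.BoundedFormula α r) :
    ∃ n, ∀ (M N : Type) (A : LP M) (B : LP N), EP A → EP B → ∀ (v : α → M) (w : α → N)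
      (xs : Fin r → M) (ys : Fin r → N), SameD n A B (Sum.elim v xs) (Sum.elim w ys) →
      (@BoundedFormula.Realize LL M A.str _ _ φ v xs ↔
        @BoundedFormula.Realize LL N B.str _ _ φ w ys) := by
  have term : ∀ {r : ℕ} (t : LL.Term (α ⊕ Fin r)), ∃ i, t = Term.var i := by
    intro r t
    cases t with
    | var i => exact ⟨i, rfl⟩
    | func f _ => exact isEmptyElim f
  induction φ with
  | falsum => exact ⟨0, fun M N A B _ _ v w xs ys _ => Iff.rfl⟩
  | equal t₁ t₂ =>
    refine ⟨0, fun M N A B _ _ v w xs ys h => ?_⟩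
    obtain ⟨i, rfl⟩ := term t₁
    obtain ⟨j, rfl⟩ := term t₂
    exact (h i j).1
  | rel R ts =>
    choose f hf using fun i => term (ts i)
    obtain rfl : ts = fun i => Term.var (f i) := funext hf
    cases R with
    | S =>
      refine ⟨0, fun M N A B _ _ v w xs ys h => ?_⟩
      exact (h (f 0) (f 0)).2.2.1
    | U k =>
      refine ⟨k + 1, fun M N A B _ _ v w xs ys h => ?_⟩
      exact (h (f 0) (f 0)).2.2.2 k (Nat.lt_succ_self k)
    | lt =>
      refine ⟨0, fun M N A B _ _ v w xs ys h => ?_⟩
      exact (h (f 0) (f 1)).2.1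
  | imp φ ψ ih1 ih2 =>
    obtain ⟨n, hn⟩ := ih1
    obtain ⟨m, hm⟩ := ih2
    refine ⟨max n m, fun M N A B hA hB v w xs ys h => ?_⟩
    have h1 := hn M N A B hA hB v w xs ys (h.mono (le_max_left _ _))
    have h2 := hm M N A B hA hB v w xs ys (h.mono (le_max_right _ _))
    exact imp_congr h1 h2
  | all φ ih =>
    obtain ⟨n, hn⟩ := ih
    refine ⟨n, fun M N A B hA hB v w xs ys h => ?_⟩
    constructor
    · intro h1 b
      obtain ⟨a, ha⟩ := hA.ext n _ N B hB.ok (Sum.elim w ys) b (Sum.elim v xs) h.symm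
      refine (hn M N A B hA hB v w _ _ ?_).1 (h1 a)
      rw [snoc_ex1, snoc_ex1]
      exact ha.symm.comp _
    · intro h1 a
      obtain ⟨b, hb⟩ := hB.ext n _ M A hA.ok (Sum.elim v xs) a (Sum.elim w ys) h
      refine (hn M N A B hA hB v w _ _ ?_).2 (h1 b)
      rw [snoc_ex1, snoc_ex1]
      exact hb.comp _

end Pool.Agent.Q298.BE
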