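import Pool.Agent.Q298.BE.Sent

set_option autoImplicit false

/-!
Embeddings between structures with the extension property.
-/

namespace Pool.Agent.Q298.BE

open FirstOrder FirstOrder.Language

variable {M N : Type} {A : LP M} {B : LP N} {ι κ : Type} {r n : ℕ}

/-- building a sequence step by step -/
theorem seq_of_step {M : Type} (P : ∀ r : ℕ, (Fin r → M) → Prop) (h0 : ∀ g, P 0 g)
    (hs : ∀ r g, P r g → ∃ y, P (r + 1) (Fin.snoc g y)) (hM : Nonempty M) :
    ∃ f : ℕ → M, ∀ r, P r (fun i => f i) := by
  choose! step hstep using hs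
  let G : ∀ r : ℕ, Fin r → M := fun r =>
    Nat.rec (motive := fun r => Fin r → M) Fin.elim0 (fun r g => Fin.snoc g (step r g)) r
  have hG : ∀ r, P r (G r) := by
    intro r
    induction r with
    | zero => exact h0 _
    | succ r ih => exact hstep r _ ih
  refine ⟨fun i => G (i + 1) (Fin.last i), fun r => ?_⟩
  have e : (fun i : Fin r => G ((i : ℕ) + 1) (Fin.last i)) = G r := by
    induction r with
    | zero => funext i; exact i.elim0
    | succ r ih =>
      funext i
      refine Fin.lastCases ?_ (fun j => ?_) i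
      · rfl
      · have h1 := congrFun ih j
        have h2 : G (r + 1) j.castSucc = G r j := by
          show (Fin.snoc (G r) (step r (G r)) : Fin (r + 1) → M) j.castSucc = _
          rw [Fin.snoc_castSucc]
        rw [h2, ← h1]
        rfl
  rw [e]
  exact hG r

/-- the elements of infinite level with a given value of `S` -/
def PS (A : LP M) (s : Prop) (x : M) : Prop := (∀ n, A.U n x) ∧ (A.S x ↔ s)

/-- the values of `S` for which there are elements of infinite level -/
def W (A : LP M) : Type := {s : Prop // ∃ x, PS A s x}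

instance : Finite (W A) := by
  unfold W
  infer_instance

/-- new elements below the elements of infinite level -/
def anc (A : LP M) : LP (W A ⊕ M) where
  lt := fun u v => match u, v with
    | .inr x, .inr y => A.lt x y
    | .inl s, .inr y => PS A s.1 y
    | _, _ => False
  S := fun u => match u with
    | .inr x => A.S x
    | .inl s => s.1
  U := fun k u => match u with
    | .inr x => A.U k x
    | .inl _ => True

theorem anc_ok (hA : A.Ok) : (anc A).Ok := by
  refine ⟨?_, ?_, ?_, ?_, ?_⟩
  · rintro (s | x) h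
    · exact h
    · exact hA.irr x h
  · rintro (s | x) (t | y) (u | z) h1 h2
    · exact h1
    · exact h1.elim
    · exact h2.elim
    · have h1 : PS A s.1 y := h1
      have h2 : A.lt y z := h2
      exact ⟨fun n => hA.uu n _ _ h2 (h1.1 n), (hA.sc _ _ h2).symm.trans h1.2⟩
    · exact h1.elim
    · exact h1.elim
    · exact h2.elim
    · exact hA.tr _ _ _ h1 h2
  · rintro (s | x) (t | y) h
    · exact h.elim
    · exact (show PS A s.1 y from h).2.symm
    · exact h.elim
    · exact hA.sc _ _ h
  · rintro n (s | x) h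
    · trivial
    · exact hA.um n x h
  · rintro n (s | x) (t | y) h1 h2
    · trivial
    · exact (show PS A s.1 y from h1).1 n
    · trivial
    · exact hA.uu n _ _ h1 h2

theorem LP.Ok.uk (hA : A.Ok) {k l : ℕ} (h : k ≤ l) {x : M} (hx : A.U l x) : A.U k x := by
  induction l with
  | zero =>
    obtain rfl : k = 0 := by omega
    exact hx
  | succ l ih =>
    rcases Nat.lt_or_ge k (l + 1) with h1 | h1
    · exact ih (by omega) (hA.um l x hx)
    · obtain rfl : k = l + 1 := by omega
      exact hx

theorem sameD_all {x : ι → M} {y : ι → N} (h0 : SameD 0 A B x y)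
    (h1 : ∀ i k, (A.U k (x i) ↔ B.U k (y i))) (n : ℕ) : SameD n A B x y :=
  fun i j => ⟨(h0 i j).1, (h0 i j).2.1, (h0 i j).2.2.1, fun k _ => h1 i k⟩

/-- The embedding lemma. -/
theorem embed (hA : A.Ok) [Countable M] (hB : EP B)
    (h : ∀ s : Prop, (∃ x, PS A s x) → ∃ y, PS B s y) :
    ∃ F : M → N, ∀ n, SameD n A B id F := by
  classical
  rcases isEmpty_or_nonempty M with hM | hM
  · exact ⟨fun x => (hM.false x).elim, fun n x => (hM.false x).elim⟩
  obtain ⟨e, he⟩ := exists_surjective_nat M
  choose an han using fun s : W A => h s.1 s.2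
  have hNne : Nonempty N := by
    obtain ⟨y, -⟩ := hB.ext 0 Empty M A hA (fun x => x.elim) (e 0) (fun x => x.elim)
      (fun x => x.elim)
    exact ⟨y⟩
  have hst : ∀ s t : W A, (B.S (an s) ↔ B.S (an t)) → s = t := fun s t h1 =>
    Subtype.ext (propext ((han s).2.symm.trans (h1.trans (han t).2)))
  let P : ∀ r : ℕ, (Fin r → N) → Prop := fun r g => ∀ n, SameD n (anc A) B
    (Sum.elim Sum.inl (fun i : Fin r => Sum.inr (e i)) : W A ⊕ Fin r → W A ⊕ M)
    (Sum.elim an g)
  have h0 : ∀ g, P 0 g := by
    rintro g n (s | i) (t | j)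
    · refine ⟨?_, ?_, ?_, fun k _ => ?_⟩
      · constructor
        · intro h1
          have h1 : (Sum.inl s : W A ⊕ M) = Sum.inl t := h1
          rw [Sum.inl.inj h1]
        · intro h1
          have h1 : an s = an t := h1
          show (Sum.inl s : W A ⊕ M) = Sum.inl t
          rw [hst s t (by rw [h1])]
      · constructor
        · intro h1
          exact h1.elim
        · intro h1
          have h1 : B.lt (an s) (an t) := h1
          have h2 := hst s t (hB.ok.sc _ _ h1)
          rw [h2] at h1
          exact (hB.ok.irr _ h1).elim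
      · exact ((han s).2).symm
      · exact ⟨fun _ => (han s).1 k, fun _ => trivial⟩
    · exact j.elim0
    · exact i.elim0
    · exact i.elim0
  have hs : ∀ r g, P r g → ∃ y, P (r + 1) (Fin.snoc g y) := by
    intro r g hg
    have key : ∃ y, SameD 0 (anc A) B
        (ex1 (Sum.elim Sum.inl (fun i : Fin r => Sum.inr (e i)) : W A ⊕ Fin r → W A ⊕ M)
          (Sum.inr (e r))) (ex1 (Sum.elim an g) y) ∧ ∀ k, (A.U k (e r) ↔ B.U k y) := by
      by_cases hx : ∀ k, A.U k (e r)
      · obtain ⟨y, hy⟩ := hB.ext 0 _ _ (anc A) (anc_ok hA) _ (Sum.inr (e r)) _ (hg 0)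
        refine ⟨y, hy, fun k => ⟨fun _ => ?_, fun _ => hx k⟩⟩
        have h1 : PS A (A.S (e r)) (e r) := ⟨hx, Iff.rfl⟩
        let w : W A := ⟨A.S (e r), e r, h1⟩
        have h2 : B.lt (an w) y := (hy (some (Sum.inl w)) none).2.1.1 h1
        exact hB.ok.uu k _ _ h2 ((han w).1 k)
      · push Not at hx
        obtain ⟨l, hl⟩ := hx
        obtain ⟨y, hy⟩ := hB.ext (l + 1) _ _ (anc A) (anc_ok hA) _ (Sum.inr (e r)) _ (hg (l + 1))
        have hy2 : ∀ k < l + 1, (A.U k (e r) ↔ B.U k y) := (hy none none).2.2.2
        refine ⟨y, hy.mono (Nat.zero_le _), fun k => ?_⟩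
        rcases Nat.lt_or_ge k (l + 1) with h1 | h1
        · exact hy2 k h1
        · refine ⟨fun h2 => (hl (hA.uk (by omega) h2)).elim, fun h2 => ?_⟩
          exact (hl ((hy2 l (by omega)).2 (hB.ok.uk (by omega) h2))).elim
    obtain ⟨y, hy1, hy2⟩ := key
    refine ⟨y, sameD_all ?_ ?_⟩
    · have e1 : (Sum.elim Sum.inl (fun i : Fin (r + 1) => Sum.inr (e i)) :
          W A ⊕ Fin (r + 1) → W A ⊕ M) = Sum.elim Sum.inl
          (Fin.snoc (fun i : Fin r => Sum.inr (e i)) (Sum.inr (e r)) :
            Fin (r + 1) → W A ⊕ M) := by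
        congr 1
        funext i
        refine Fin.lastCases ?_ (fun j => ?_) i
        · simp
        · simp
      rw [e1, snoc_ex1, snoc_ex1]
      exact hy1.comp _
    · rintro (s | i) k
      · exact ⟨fun _ => (han s).1 k, fun _ => trivial⟩
      · refine Fin.lastCases ?_ (fun j => ?_) i
        · show A.U k (e (Fin.last r)) ↔ B.U k ((Fin.snoc g y : Fin (r + 1) → N) (Fin.last r))
          rw [Fin.snoc_last]
          exact hy2 k
        · show A.U k (e j.castSucc) ↔ B.U k ((Fin.snoc g y : Fin (r + 1) → N) j.castSucc)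
          rw [Fin.snoc_castSucc]
          exact (hg (k + 1) (Sum.inr j) (Sum.inr j)).2.2.2 k (Nat.lt_succ_self k)
  obtain ⟨f, hf⟩ := seq_of_step P h0 hs hNne
  choose idx hidx using he
  have main : ∀ (n i j : ℕ), (e i = e j ↔ f i = f j) ∧ (A.lt (e i) (e j) ↔ B.lt (f i) (f j)) ∧
      (A.S (e i) ↔ B.S (f i)) ∧ ∀ k < n, (A.U k (e i) ↔ B.U k (f i)) := by
    intro n i j
    have h1 := hf (max i j + 1) n (Sum.inr ⟨i, by omega⟩) (Sum.inr ⟨j, by omega⟩)
    exact ⟨⟨fun h2 => h1.1.1 (congrArg Sum.inr h2), fun h2 => Sum.inr.inj (h1.1.2 h2)⟩, h1.2⟩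
  refine ⟨fun x => f (idx x), fun n x y => ?_⟩
  have h1 := main n (idx x) (idx y)
  rw [hidx, hidx] at h1
  exact h1

/-- Diagram preserving maps are elementary. -/
theorem elem (hA : EP A) (hB : EP B) (F : M → N) (hF : ∀ n, SameD n A B id F) :
    Nonempty (@FirstOrder.Language.ElementaryEmbedding LL M N A.str B.str) := by
  refine ⟨@FirstOrder.Language.ElementaryEmbedding.mk LL M N A.str B.str F fun n φ x => ?_⟩
  obtain ⟨m, hm⟩ := qe φ
  refine (hm M N A B hA hB x (F ∘ x) default default ?_).symm
  have h1 := (hF m).comp (Sum.elim x (fun i : Fin 0 => i.elim0))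
  have e1 : (Sum.elim x (default : Fin 0 → M)) = id ∘ (Sum.elim x (fun i : Fin 0 => i.elim0)) := by
    funext s
    rcases s with s | s
    · rfl
    · exact s.elim0
  have e2 : (Sum.elim (F ∘ x) (default : Fin 0 → N)) =
      F ∘ (Sum.elim x (fun i : Fin 0 => i.elim0)) := by
    funext s
    rcases s with s | s
    · rfl
    · exact s.elim0
  rw [e1, e2]
  exact h1

/-- All structures with the extension property are elementarily equivalent. -/
theorem equivalent (hA : EP A) (hB : EP B) (φ : LL.Sentence) :
    @Sentence.Realize LL M A.str φ ↔ @Sentence.Realize LL N B.str φ := by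
  obtain ⟨m, hm⟩ := qe φ
  refine hm M N A B hA hB default default default default ?_
  rintro (s | s)
  · exact s.elim
  · exact s.elim0

/-- elementary embeddings preserve infinite levels -/
theorem PS.map {s : Prop} {x : M}
    (F : @FirstOrder.Language.ElementaryEmbedding LL M N A.str B.str) (hx : PS A s x) :
    PS B s (@FirstOrder.Language.ElementaryEmbedding.toFun LL M N A.str B.str F x) := by
  let := A.str
  let := B.str
  have h1 : ∀ k, (B.U k (F.toFun x) ↔ A.U k x) := by
    intro k
    have h := F.map_formula' (n := 1) (BoundedFormula.rel (Rel.U k) ![Term.var (Sum.inl 0)])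
      (fun _ => x)
    exact h
  have h2 : B.S (F.toFun x) ↔ A.S x := by
    have h := F.map_formula' (n := 1) (BoundedFormula.rel Rel.S ![Term.var (Sum.inl 0)])
      (fun _ => x)
    exact h
  exact ⟨fun k => (h1 k).2 (hx.1 k), h2.trans hx.2⟩

end Pool.Agent.Q298.BE
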