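import Pool.Agent.Q298.BE.Gen

set_option autoImplicit false

/-!
Continuum many structures with the extension property; the four similarity types.
-/

namespace Pool.Agent.Q298.BE

theorem lim_base (B : Stg) (hB : BOk B) (j k : ℕ) :
    ((lim B).R (2 * j) (2 * k) ↔ B.R j k) ∧ (lim B).lev (2 * j) = B.lev j ∧
      (lim B).bit (2 * j) = B.bit j := by
  have h := (inv B hB (2 * max j k + 1)).2 j k (by omega) (by omega)
  rw [lim_R B (n := 2 * max j k + 1) (by omega) (by omega),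
    lim_lev B (n := 2 * max j k + 1) (by omega), lim_bit B (n := 2 * max j k + 1) (by omega)]
  exact h

theorem top_base (B : Stg) (hB : BOk B) (x : ℕ) : (lim B).lev x = ⊤ →
    ∃ j, B.lev j = ⊤ ∧ (x = 2 * j ∨ (lim B).R (2 * j) x) := by
  induction x using Nat.strong_induction_on with
  | _ x ih =>
    intro hx
    rcases Nat.even_or_odd' x with ⟨m, rfl | rfl⟩
    · exact ⟨m, by rw [← (lim_base B hB m m).2.1]; exact hx, Or.inl rfl⟩
    · have h0 := lim_new B hB (n := 2 * m + 1) (x := 0) (by omega)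
      rw [h0.2.2.1] at hx
      obtain ⟨i, hi, h1⟩ := dat_top B m hx
      have hv := val B hB (2 * m + 1) (inv B hB _).2
      have hlt := hv.hI i hi
      rw [← lim_lev B hlt] at h1
      obtain ⟨j, h2, h3⟩ := ih i hlt h1
      have h4 : (lim B).R i (2 * m + 1) := (lim_new B hB hlt).1.2 ⟨i, hi, Or.inl rfl⟩
      refine ⟨j, h2, Or.inr ?_⟩
      rcases h3 with rfl | h3
      · exact h4
      · exact (lim_ok B hB).tr _ _ _ h3 h4

theorem all_lt {x : ℕ∞} : (∀ k : ℕ, (k : ℕ∞) < x) ↔ x = ⊤ := by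
  constructor
  · intro h
    by_contra hx
    obtain ⟨m, hm⟩ := ENat.ne_top_iff_exists.1 hx
    have := h m
    rw [← hm] at this
    exact lt_irrefl _ this
  · rintro rfl k
    exact ENat.natCast_lt_top k

/-- elements of infinite level come from the base -/
theorem ps_lim (B : Stg) (hB : BOk B) (s : Prop) :
    (∃ x, PS (toLP (lim B)) s x) ↔ ∃ j, B.lev j = ⊤ ∧ (B.bit j = true ↔ s) := by
  constructor
  · rintro ⟨x, h1, h2⟩
    obtain ⟨j, h3, h4⟩ := top_base B hB x (all_lt.1 h1)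
    refine ⟨j, h3, ?_⟩
    have h5 : (lim B).bit x = B.bit j := by
      rcases h4 with rfl | h4
      · exact (lim_base B hB j j).2.2
      · rw [← (lim_ok B hB).bt _ _ h4]
        exact (lim_base B hB j j).2.2
    have h2 : (lim B).bit x = true ↔ s := h2
    rw [← h5]
    exact h2
  · rintro ⟨j, h1, h2⟩
    refine ⟨2 * j, fun k => ?_, ?_⟩
    · show (k : ℕ∞) < (lim B).lev (2 * j)
      rw [(lim_base B hB j j).2.1, h1]
      exact ENat.natCast_lt_top k
    · show (lim B).bit (2 * j) = true ↔ s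
      rw [(lim_base B hB j j).2.2]
      exact h2

/-! ### an isomorphism invariant -/

section

variable {M N : Type}

/-- minimal elements of infinite level -/
def minP (A : LP M) (x : M) : Prop := (∀ k, A.U k x) ∧ ∀ y, A.lt y x → ¬ ∀ k, A.U k y

/-- elements below infinitely many minimal elements of infinite level -/
def Dx (A : LP M) (x : M) : Prop := {a | minP A a ∧ A.lt x a}.Infinite

/-- maximal elements of this set -/
def mD (A : LP M) (x : M) : Prop := Dx A x ∧ ∀ y, A.lt x y → ¬ Dx A y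

/-- their levels -/
def Inv (A : LP M) : Set ℕ := {n | ∃ x, mD A x ∧ ∀ k, A.U k x ↔ k < n}

variable {A : LP M} {B : LP N}

theorem minP_iso (σ : M ≃ N) (h1 : ∀ x y, B.lt (σ x) (σ y) ↔ A.lt x y)
    (h2 : ∀ k x, B.U k (σ x) ↔ A.U k x) (x : M) : minP B (σ x) ↔ minP A x := by
  unfold minP
  simp only [h2, σ.surjective.forall, h1]

theorem Dx_iso (σ : M ≃ N) (h1 : ∀ x y, B.lt (σ x) (σ y) ↔ A.lt x y)
    (h2 : ∀ k x, B.U k (σ x) ↔ A.U k x) (x : M) : Dx B (σ x) ↔ Dx A x := by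
  unfold Dx
  have : {a | minP B a ∧ B.lt (σ x) a} = σ '' {a | minP A a ∧ A.lt x a} := by
    ext b
    obtain ⟨a, rfl⟩ := σ.surjective b
    constructor
    · rintro ⟨h3, h4⟩
      exact ⟨a, ⟨(minP_iso σ h1 h2 a).1 h3, (h1 x a).1 h4⟩, rfl⟩
    · rintro ⟨a', ⟨h3, h4⟩, h5⟩
      rw [σ.injective h5] at h3 h4
      exact ⟨(minP_iso σ h1 h2 a).2 h3, (h1 x a).2 h4⟩
  rw [this, Set.infinite_image_iff σ.injective.injOn]

theorem Inv_iso (σ : M ≃ N) (h1 : ∀ x y, B.lt (σ x) (σ y) ↔ A.lt x y)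
    (h2 : ∀ k x, B.U k (σ x) ↔ A.U k x) : Inv B = Inv A := by
  have h3 : ∀ x, mD B (σ x) ↔ mD A x := by
    intro x
    unfold mD
    simp only [σ.surjective.forall, Dx_iso σ h1 h2, h1]
  unfold Inv
  ext n
  constructor
  · rintro ⟨y, h4, h5⟩
    obtain ⟨x, rfl⟩ := σ.surjective y
    exact ⟨x, (h3 x).1 h4, fun k => (h2 k x).symm.trans (h5 k)⟩
  · rintro ⟨x, h4, h5⟩
    exact ⟨σ x, (h3 x).2 h4, fun k => (h2 k x).trans (h5 k)⟩

open FirstOrder FirstOrder.Language in
theorem Inv_equiv (σ : @FirstOrder.Language.Equiv LL M N A.str B.str) : Inv B = Inv A := by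
  let := A.str
  let := B.str
  refine Inv_iso σ.toEquiv (fun x y => ?_) (fun k x => ?_)
  · exact σ.map_rel (n := 2) Rel.lt ![x, y]
  · exact σ.map_rel (n := 1) (Rel.U k) ![x]

end

/-! ### the family -/

/-- the elements of finite level of the base -/
def isD (S : Set ℕ) (j : ℕ) : Prop := j % 2 = 1 ∧ j / 2 ∈ S

open Classical in
/-- the base for a set `S` -/
noncomputable def fam (S : Set ℕ) : Stg where
  R := fun j k => isD S j ∧ ¬ isD S k
  lev := fun j => if isD S j then ((j / 2 : ℕ) : ℕ∞) else ⊤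
  bit := fun _ => false

variable {S : Set ℕ}

theorem fam_lev_top {j : ℕ} : (fam S).lev j = ⊤ ↔ ¬ isD S j := by
  classical
  show (if isD S j then ((j / 2 : ℕ) : ℕ∞) else ⊤) = ⊤ ↔ _
  split_ifs with h
  · exact ⟨fun h1 => absurd h1 (ENat.natCast_ne_top _), fun h1 => absurd h h1⟩
  · exact ⟨fun _ => h, fun _ => rfl⟩

theorem fam_ok (S : Set ℕ) : BOk (fam S) := by
  refine ⟨fun x h => h.2 h.1, fun x y z h1 h2 => (h1.2 h2.1).elim, fun x y h => ?_,
    fun _ _ _ => rfl⟩
  rw [fam_lev_top.2 h.2]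
  exact le_top

theorem minP_fam (x : ℕ) : minP (toLP (lim (fam S))) x ↔ ∃ j, ¬ isD S j ∧ x = 2 * j := by
  have hB := fam_ok S
  have hG := lim_ok _ hB
  constructor
  · rintro ⟨h1, h2⟩
    obtain ⟨j, h3, h4⟩ := top_base _ hB x (all_lt.1 h1)
    refine ⟨j, fam_lev_top.1 h3, ?_⟩
    rcases h4 with rfl | h4
    · rfl
    · refine absurd (fun k => ?_) (h2 _ h4)
      show (k : ℕ∞) < (lim (fam S)).lev (2 * j)
      rw [(lim_base _ hB j j).2.1, h3]
      exact ENat.natCast_lt_top k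
  · rintro ⟨j, hj, rfl⟩
    refine ⟨fun k => ?_, fun y h1 h2 => ?_⟩
    · show (k : ℕ∞) < (lim (fam S)).lev (2 * j)
      rw [(lim_base _ hB j j).2.1, fam_lev_top.2 hj]
      exact ENat.natCast_lt_top k
    · obtain ⟨j', h3, h4⟩ := top_base _ hB y (all_lt.1 h2)
      have h1 : (lim (fam S)).R y (2 * j) := h1
      have h5 : (lim (fam S)).R (2 * j') (2 * j) := by
        rcases h4 with rfl | h4
        · exact h1
        · exact hG.tr _ _ _ h4 h1
      exact fam_lev_top.1 h3 ((lim_base _ hB j' j).1.1 h5).1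

theorem Dx_fam (x : ℕ) : Dx (toLP (lim (fam S))) x ↔
    ∃ j, isD S j ∧ (x = 2 * j ∨ (lim (fam S)).R x (2 * j)) := by
  have hB := fam_ok S
  have hG := lim_ok _ hB
  constructor
  · intro h
    obtain ⟨a, ⟨h1, h2⟩, h3⟩ := Set.Infinite.exists_gt h x
    obtain ⟨j, h4, rfl⟩ := (minP_fam a).1 h1
    have h2 : (lim (fam S)).R x (2 * j) := h2
    obtain ⟨i, hi, h5⟩ := (lim_new _ hB h3).1.1 h2
    obtain ⟨j', -, h6, rfl⟩ := (mem_evI _ j i).1 hi
    exact ⟨j', h6.1, h5⟩
  · rintro ⟨j, hj, h1⟩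
    have h2 : ∀ k, ¬ isD S k → (lim (fam S)).R x (2 * k) := by
      intro k hk
      have h3 : (lim (fam S)).R (2 * j) (2 * k) := (lim_base _ hB j k).1.2 ⟨hj, hk⟩
      rcases h1 with rfl | h1
      · exact h3
      · exact hG.tr _ _ _ h1 h3
    have h3 : ∀ t : ℕ, ¬ isD S (2 * t) := fun t h => by
      have := h.1
      omega
    refine Set.infinite_of_injective_forall_mem (f := fun t : ℕ => 2 * (2 * t))
      (fun t t' h => ?_) (fun t => ⟨(minP_fam _).2 ⟨2 * t, h3 t, rfl⟩, h2 _ (h3 t)⟩)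
    have h : 2 * (2 * t) = 2 * (2 * t') := h
    omega

theorem mD_fam (x : ℕ) : mD (toLP (lim (fam S))) x ↔ ∃ j, isD S j ∧ x = 2 * j := by
  have hB := fam_ok S
  have hG := lim_ok _ hB
  constructor
  · rintro ⟨h1, h2⟩
    obtain ⟨j, hj, h3⟩ := (Dx_fam x).1 h1
    rcases h3 with h3 | h3
    · exact ⟨j, hj, h3⟩
    · exact absurd ((Dx_fam (2 * j)).2 ⟨j, hj, Or.inl rfl⟩) (h2 _ h3)
  · rintro ⟨j, hj, rfl⟩
    refine ⟨(Dx_fam _).2 ⟨j, hj, Or.inl rfl⟩, fun y h1 h2 => ?_⟩
    have h1 : (lim (fam S)).R (2 * j) y := h1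
    obtain ⟨j', hj', h3⟩ := (Dx_fam y).1 h2
    have h4 : (lim (fam S)).R (2 * j) (2 * j') := by
      rcases h3 with rfl | h3
      · exact h1
      · exact hG.tr _ _ _ h1 h3
    exact ((lim_base _ hB j j').1.1 h4).2 hj'

theorem Inv_fam (S : Set ℕ) : Inv (toLP (lim (fam S))) = S := by
  have hB := fam_ok S
  have hl : ∀ j, isD S j → (lim (fam S)).lev (2 * j) = ((j / 2 : ℕ) : ℕ∞) := by
    intro j hj
    rw [(lim_base _ hB j j).2.1]
    exact if_pos hj
  ext n
  constructor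
  · rintro ⟨x, h1, h2⟩
    obtain ⟨j, hj, rfl⟩ := (mD_fam x).1 h1
    have h3 : ∀ k : ℕ, k < j / 2 ↔ k < n := by
      intro k
      rw [← h2 k]
      show _ ↔ (k : ℕ∞) < (lim (fam S)).lev (2 * j)
      rw [hl j hj]
      exact_mod_cast Iff.rfl
    have h4 : n = j / 2 := by
      have e1 := h3 n
      have e2 := h3 (j / 2)
      omega
    rw [h4]
    exact hj.2
  · intro hn
    have hj : isD S (2 * n + 1) := ⟨by omega, by
      rw [show (2 * n + 1) / 2 = n by omega]
      exact hn⟩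
    refine ⟨2 * (2 * n + 1), (mD_fam _).2 ⟨_, hj, rfl⟩, fun k => ?_⟩
    show (k : ℕ∞) < (lim (fam S)).lev (2 * (2 * n + 1)) ↔ _
    rw [hl _ hj, show (2 * n + 1) / 2 = n by omega]
    exact_mod_cast Iff.rfl

/-! ### the four types -/

open Classical in
/-- bases for the four types -/
noncomputable def four (s : Set Bool) : Stg where
  R := fun _ _ => False
  lev := fun j => if decide (j % 2 = 0) ∈ s then ⊤ else 0
  bit := fun j => decide (j % 2 = 0)

theorem four_ok (s : Set Bool) : BOk (four s) :=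
  ⟨fun _ h => h, fun _ _ _ h => h.elim, fun _ _ h => h.elim, fun _ _ h => h.elim⟩

theorem ps_four (s : Set Bool) (b : Bool) :
    (∃ x, PS (toLP (lim (four s))) (b = true) x) ↔ b ∈ s := by
  classical
  rw [ps_lim _ (four_ok s)]
  constructor
  · rintro ⟨j, h1, h2⟩
    have h3 : decide (j % 2 = 0) = b := by
      rw [Bool.eq_iff_iff]
      exact h2
    by_contra hb
    have h1 : (if decide (j % 2 = 0) ∈ s then (⊤ : ℕ∞) else 0) = ⊤ := h1
    rw [h3, if_neg hb] at h1
    simp at h1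
  · intro hb
    refine ⟨if b then 0 else 1, ?_, ?_⟩
    · show (if decide ((if b then 0 else 1) % 2 = 0) ∈ s then (⊤ : ℕ∞) else 0) = ⊤
      rw [if_pos]
      cases b <;> simpa using hb
    · show decide ((if b then 0 else 1) % 2 = 0) = true ↔ _
      cases b <;> simp

end Pool.Agent.Q298.BE
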