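import Pool.Agent.Q298.BE.Build

set_option autoImplicit false

/-!
The limits have the extension property.
-/

namespace Pool.Agent.Q298.BE

theorem lim_ok (B : Stg) (hB : BOk B) : BOk (lim B) := by
  refine ⟨fun x h => ?_, fun x y z h1 h2 => ?_, fun x y h => ?_, fun x y h => ?_⟩
  · exact (good_ok (n := max x x + 1) B hB).irr x h
  · let n := max x (max y z) + 1
    have h1' := (lim_R B (n := n) (by omega) (by omega)).1 h1
    have h2' := (lim_R B (n := n) (by omega) (by omega)).1 h2
    exact (lim_R B (n := n) (by omega) (by omega)).2 ((good_ok B hB).tr _ _ _ h1' h2')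
  · let n := max x y + 1
    rw [lim_lev B (n := n) (x := x) (by omega), lim_lev B (n := n) (x := y) (by omega)]
    exact (good_ok B hB).lv _ _ h
  · let n := max x y + 1
    rw [lim_bit B (n := n) (x := x) (by omega), lim_bit B (n := n) (x := y) (by omega)]
    exact (good_ok B hB).bt _ _ h

/-- the interpretations -/
def toLP (G : Stg) : LP ℕ where
  lt := G.R
  S := fun x => G.bit x = true
  U := fun k x => (k : ℕ∞) < G.lev x

theorem toLP_ok {G : Stg} (h : BOk G) : (toLP G).Ok := by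
  refine ⟨h.irr, h.tr, fun x y hxy => ?_, fun n x hx => ?_, fun n x y hxy hx => ?_⟩
  · show G.bit x = true ↔ G.bit y = true
    rw [h.bt x y hxy]
  · have hx : ((n + 1 : ℕ) : ℕ∞) < G.lev x := hx
    exact lt_trans (by exact_mod_cast Nat.lt_succ_self n) hx
  · exact lt_of_lt_of_le hx (h.lv x y hxy)

theorem lim_ep (B : Stg) (hB : BOk B) : EP (toLP (lim B)) := by
  classical
  have hG := lim_ok B hB
  have hok := toLP_ok hG
  refine ⟨hok, fun n ι _ M A hA a b z hz => ?_⟩
  by_cases hb : ∃ i, a i = b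
  · obtain ⟨i, rfl⟩ := hb
    refine ⟨z i, ?_⟩
    have e1 : ∀ {P : Type} (x : ι → P), ex1 x (x i) = x ∘ (fun o : Option ι => o.elim i id) := by
      intro P x
      funext o
      cases o <;> rfl
    rw [e1, e1]
    exact hz.comp _
  push Not at hb
  have := Fintype.ofFinite ι
  have key : ∃ l : ℕ∞, (∀ i, A.lt (a i) b → (lim B).lev (z i) ≤ l) ∧
      (∀ o, A.lt b (a o) → l ≤ (lim B).lev (z o)) ∧ (∀ k < n, (A.U k b ↔ (k : ℕ∞) < l)) ∧
      (l = ⊤ → ∃ i, A.lt (a i) b ∧ (lim B).lev (z i) = ⊤) := by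
    by_cases hall : ∀ k < n, A.U k b
    · let J : Finset ι := Finset.univ.filter (fun i => A.lt (a i) b)
      have hJ : ∀ i, i ∈ J ↔ A.lt (a i) b := fun i => by simp [J]
      refine ⟨max n (J.sup (fun i => (lim B).lev (z i))), fun i hi => ?_, fun o ho => ?_,
        fun k hk => ⟨fun _ => ?_, fun _ => hall k hk⟩, fun h => ?_⟩
      · exact le_max_of_le_right (Finset.le_sup (f := fun i => (lim B).lev (z i))
          ((hJ i).2 hi))
      · refine max_le ?_ (Finset.sup_le fun i hi => ?_)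
        · by_contra hcon
          push Not at hcon
          obtain ⟨m, hm⟩ := ENat.ne_top_iff_exists.1 (ne_top_of_lt hcon)
          rw [← hm] at hcon
          have hmn : m < n := by exact_mod_cast hcon
          have h1 : A.U m (a o) := hA.uu m _ _ ho (hall m hmn)
          have h2 : ((m : ℕ) : ℕ∞) < (lim B).lev (z o) := ((hz o o).2.2.2 m hmn).1 h1
          rw [← hm] at h2
          exact lt_irrefl _ h2
        · exact hG.lv _ _ ((hz i o).2.1.1 (hA.tr _ _ _ ((hJ i).1 hi) ho))
      · exact lt_max_of_lt_left (by exact_mod_cast hk)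
      · rcases max_eq_top.1 h with h1 | h1
        · exact absurd h1 (ENat.natCast_ne_top n)
        · rcases J.eq_empty_or_nonempty with h2 | h2
          · rw [h2, Finset.sup_empty] at h1
            exact absurd h1 (by simp)
          · obtain ⟨i, hi, h3⟩ := Finset.exists_mem_eq_sup J h2 (fun i => (lim B).lev (z i))
            exact ⟨i, (hJ i).1 hi, by rw [← h1, h3]⟩
    · push Not at hall
      have hex : ∃ k, k < n ∧ ¬ A.U k b := hall
      obtain ⟨hm, hU⟩ := Nat.find_spec hex
      have hmin : ∀ j < Nat.find hex, A.U j b := fun j hj => by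
        by_contra h
        exact Nat.find_min hex hj ⟨by omega, h⟩
      generalize Nat.find hex = m at *
      refine ⟨m, fun i hi => ?_, fun o ho => ?_, fun k hk => ⟨fun h => ?_, fun h => ?_⟩,
        fun h => absurd h (ENat.natCast_ne_top m)⟩
      · by_contra hcon
        push Not at hcon
        exact hU (hA.uu m _ _ hi (((hz i i).2.2.2 m hm).2 hcon))
      · by_contra hcon
        push Not at hcon
        obtain ⟨j, hj⟩ := ENat.ne_top_iff_exists.1 (ne_top_of_lt hcon)
        rw [← hj] at hcon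
        have hjm : j < m := by exact_mod_cast hcon
        have h1 : A.U j (a o) := hA.uu j _ _ ho (hmin j hjm)
        have h2 : ((j : ℕ) : ℕ∞) < (lim B).lev (z o) := ((hz o o).2.2.2 j (by omega)).1 h1
        rw [← hj] at h2
        exact lt_irrefl _ h2
      · by_contra hcon
        push Not at hcon
        have : m ≤ k := by exact_mod_cast hcon
        exact hU (hA.uk this h)
      · exact hmin k (by exact_mod_cast h)
  obtain ⟨l, hl1, hl2, hl3, hl4⟩ := key
  let d : Dat := ⟨(Finset.univ.filter (fun i => A.lt (a i) b)).image z,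
    (Finset.univ.filter (fun i => A.lt b (a i))).image z, l, decide (A.S b)⟩
  have hdI : ∀ x, x ∈ d.I ↔ ∃ i, A.lt (a i) b ∧ z i = x := fun x => by simp [d]
  have hdO : ∀ x, x ∈ d.O ↔ ∃ i, A.lt b (a i) ∧ z i = x := fun x => by simp [d]
  obtain ⟨k, hk, hdec⟩ := dec_large d (Finset.univ.sup z)
  have hlt : ∀ i, z i < 2 * k + 1 := fun i => by
    have := Finset.le_sup (f := z) (Finset.mem_univ i)
    omega
  have hv : Valid (2 * k + 1) (stage B (2 * k + 1)) d := by
    refine ⟨?_, ?_, ?_, ?_, ?_⟩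
    · intro x hx
      obtain ⟨i, -, rfl⟩ := (hdI x).1 hx
      exact hlt i
    · intro x hx
      obtain ⟨i, -, rfl⟩ := (hdO x).1 hx
      exact hlt i
    · intro x hx y hy
      obtain ⟨i, h1, rfl⟩ := (hdI x).1 hx
      obtain ⟨j, h2, rfl⟩ := (hdO y).1 hy
      exact (lim_R B (hlt i) (hlt j)).1 ((hz i j).2.1.1 (hA.tr _ _ _ h1 h2))
    · intro x hx
      obtain ⟨i, h1, rfl⟩ := (hdI x).1 hx
      rw [← lim_lev B (hlt i), ← lim_bit B (hlt i)]
      refine ⟨hl1 i h1, ?_⟩
      have h2 : (lim B).bit (z i) = true ↔ A.S b := ((hz i i).2.2.1).symm.trans (hA.sc _ _ h1)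
      show (lim B).bit (z i) = decide (A.S b)
      rw [Bool.eq_iff_iff, decide_eq_true_eq]
      exact h2
    · intro x hx
      obtain ⟨i, h1, rfl⟩ := (hdO x).1 hx
      rw [← lim_lev B (hlt i), ← lim_bit B (hlt i)]
      refine ⟨hl2 i h1, ?_⟩
      have h2 : (lim B).bit (z i) = true ↔ A.S b :=
        ((hz i i).2.2.1).symm.trans (hA.sc _ _ h1).symm
      show (lim B).bit (z i) = decide (A.S b)
      rw [Bool.eq_iff_iff, decide_eq_true_eq]
      exact h2
  have hdat : dat B (2 * k + 1) = d := by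
    rw [← hdec]
    refine dat_odd B k (by rw [hdec]; exact hv) fun htop => ?_
    rw [hdec] at htop ⊢
    obtain ⟨i, h1, h2⟩ := hl4 htop
    exact ⟨z i, (hdI _).2 ⟨i, h1, rfl⟩, by rw [← lim_lev B (hlt i)]; exact h2⟩
  have hn := fun i => lim_new B hB (hlt i)
  rw [hdat] at hn
  have hlast : (lim B).lev (2 * k + 1) = l ∧ (lim B).bit (2 * k + 1) = decide (A.S b) := by
    have h := lim_new B hB (n := 2 * k + 1) (x := 0) (by omega)
    rw [hdat] at h
    exact ⟨h.2.2.1, h.2.2.2⟩
  have hup : ∀ i, (A.lt (a i) b ↔ (lim B).R (z i) (2 * k + 1)) := by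
    intro i
    rw [(hn i).1]
    constructor
    · intro h
      exact ⟨z i, (hdI _).2 ⟨i, h, rfl⟩, Or.inl rfl⟩
    · rintro ⟨x, hx, h1⟩
      obtain ⟨j, h2, rfl⟩ := (hdI x).1 hx
      rcases h1 with h1 | h1
      · rw [(hz i j).1.2 h1]
        exact h2
      · exact hA.tr _ _ _ ((hz i j).2.1.2 h1) h2
  have hdn : ∀ i, (A.lt b (a i) ↔ (lim B).R (2 * k + 1) (z i)) := by
    intro i
    rw [(hn i).2.1]
    constructor
    · intro h
      exact ⟨z i, (hdO _).2 ⟨i, h, rfl⟩, Or.inl rfl⟩
    · rintro ⟨x, hx, h1⟩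
      obtain ⟨j, h2, rfl⟩ := (hdO x).1 hx
      rcases h1 with h1 | h1
      · rw [← (hz j i).1.2 h1]
        exact h2
      · exact hA.tr _ _ _ h2 ((hz j i).2.1.2 h1)
  have hS : A.S b ↔ (lim B).bit (2 * k + 1) = true := by
    rw [hlast.2, decide_eq_true_eq]
  have hU : ∀ m < n, (A.U m b ↔ (m : ℕ∞) < (lim B).lev (2 * k + 1)) := by
    intro m hm
    rw [hlast.1]
    exact hl3 m hm
  refine ⟨2 * k + 1, ?_⟩
  rintro (_ | i) (_ | j)
  · exact ⟨⟨fun _ => rfl, fun _ => rfl⟩, ⟨fun h => (hA.irr _ h).elim, fun h =>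
      (hG.irr _ h).elim⟩, hS, hU⟩
  · exact ⟨⟨fun h => (hb j h.symm).elim, fun h => by
      have h : 2 * k + 1 = z j := h
      have := hlt j
      omega⟩, hdn j, hS, hU⟩
  · exact ⟨⟨fun h => (hb i h).elim, fun h => by
      have h : z i = 2 * k + 1 := h
      have := hlt i
      omega⟩, hup i, (hz i i).2.2.1, (hz i i).2.2.2⟩
  · exact hz i j

end Pool.Agent.Q298.BE
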