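import Pool.Agent.Q298.BE.Defs

set_option autoImplicit false

/-!
The extension property is first-order.
-/

namespace Pool.Agent.Q298.BE

open FirstOrder FirstOrder.Language

variable {M N : Type} {A : LP M} {B : LP N} {ι κ : Type} {r n : ℕ}

open Classical in
/-- a literal -/
noncomputable def lit (P : Prop) (φ : LL.BoundedFormula Empty r) : LL.BoundedFormula Empty r :=
  if P then φ else φ.not

theorem realize_lit [LL.Structure N] {P : Prop} {φ : LL.BoundedFormula Empty r} {v : Empty → N}
    {xs : Fin r → N} : (lit P φ).Realize v xs ↔ (P ↔ φ.Realize v xs) := by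
  unfold lit
  split_ifs with h
  · simp [h]
  · simp [h]

/-- a variable -/
def va (i : Fin r) : LL.Term (Empty ⊕ Fin r) := Term.var (Sum.inr i)

/-- order of two variables -/
def flt (i j : Fin r) : LL.BoundedFormula Empty r := BoundedFormula.rel Rel.lt ![va i, va j]

/-- the predicate `S` -/
def fS (i : Fin r) : LL.BoundedFormula Empty r := BoundedFormula.rel Rel.S ![va i]

/-- the predicates `U` -/
def fU (k : ℕ) (i : Fin r) : LL.BoundedFormula Empty r := BoundedFormula.rel (Rel.U k) ![va i]

/-- the diagram of a tuple -/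
noncomputable def dia (n : ℕ) (A : LP M) (a : Fin r → M) : LL.BoundedFormula Empty r :=
  BoundedFormula.iInf (fun p : Fin r × Fin r =>
    lit (a p.1 = a p.2) (BoundedFormula.equal (va p.1) (va p.2)) ⊓
    (lit (A.lt (a p.1) (a p.2)) (flt p.1 p.2) ⊓
      (lit (A.S (a p.1)) (fS p.1) ⊓
        BoundedFormula.iInf (fun k : Fin n => lit (A.U k (a p.1)) (fU k p.1)))))

theorem realize_dia (a : Fin r → M) (v : Empty → N) (xs : Fin r → N) :
    @BoundedFormula.Realize LL N B.str _ _ (dia n A a) v xs ↔ SameD n A B a xs := by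
  let := B.str
  unfold dia SameD
  rw [BoundedFormula.realize_iInf, Prod.forall]
  refine forall_congr' fun i => forall_congr' fun j => ?_
  rw [BoundedFormula.realize_inf, BoundedFormula.realize_inf, BoundedFormula.realize_inf,
    BoundedFormula.realize_iInf, realize_lit, realize_lit, realize_lit]
  refine and_congr Iff.rfl (and_congr Iff.rfl (and_congr Iff.rfl ?_))
  constructor
  · intro h k hk
    exact realize_lit.1 (h ⟨k, hk⟩)
  · intro h k
    exact realize_lit.2 (h k k.2)

/-- one more variable -/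
def up (r : ℕ) : Fin (r + 1) → Option (Fin r) := fun i =>
  Fin.lastCases (motive := fun _ => Option (Fin r)) none (fun j => some j) i

theorem snoc_up (xs : Fin r → M) (b : M) :
    (Fin.snoc xs b : Fin (r + 1) → M) = ex1 xs b ∘ up r := by
  funext i
  refine Fin.lastCases ?_ (fun j => ?_) i
  · simp [ex1, up]
  · simp [ex1, up]

/-- structures elementarily equivalent to structures with the extension property have it -/
theorem EP.transfer {N0 : Type} {B0 : LP N0} (h0 : EP B0)
    (h : ∀ φ : LL.Sentence, @Sentence.Realize LL N0 B0.str φ ↔ @Sentence.Realize LL N B.str φ) :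
    EP B := by
  have key : ∀ (n : ℕ) {r : ℕ} (x : Fin r → N), ∃ z : Fin r → N0, SameD n B B0 x z := by
    intro n r x
    have h1 := (h (dia n B x).exs).2 (by
      let := B.str
      refine BoundedFormula.realize_exs.2 ⟨x, ?_⟩
      exact (realize_dia x _ _).2 (SameD.refl x))
    let := B0.str
    obtain ⟨z, hz⟩ := BoundedFormula.realize_exs.1 h1
    exact ⟨z, (realize_dia x _ _).1 hz⟩
  refine ⟨⟨fun x => ?_, fun x y z => ?_, fun x y => ?_, fun n x => ?_, fun n x y => ?_⟩, ?_⟩
  · obtain ⟨z, hz⟩ := key 0 (r := 1) (fun _ => x)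
    rw [(hz 0 0).2.1]
    exact h0.ok.irr _
  · obtain ⟨w, hw⟩ := key 0 (r := 3) ![x, y, z]
    have e1 := (hw 0 1).2.1
    have e2 := (hw 1 2).2.1
    have e3 := (hw 0 2).2.1
    change B.lt x y ↔ _ at e1
    change B.lt y z ↔ _ at e2
    change B.lt x z ↔ _ at e3
    rw [e1, e2, e3]
    exact h0.ok.tr _ _ _
  · obtain ⟨w, hw⟩ := key 0 (r := 2) ![x, y]
    have e1 := (hw 0 1).2.1
    have e2 := (hw 0 0).2.2.1
    have e3 := (hw 1 1).2.2.1
    change B.lt x y ↔ _ at e1
    change B.S x ↔ _ at e2
    change B.S y ↔ _ at e3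
    rw [e1, e2, e3]
    exact h0.ok.sc _ _
  · obtain ⟨w, hw⟩ := key (n + 2) (r := 1) (fun _ => x)
    have e1 := (hw 0 0).2.2.2 n (by omega)
    have e2 := (hw 0 0).2.2.2 (n + 1) (by omega)
    change B.U n x ↔ _ at e1
    change B.U (n + 1) x ↔ _ at e2
    rw [e1, e2]
    exact h0.ok.um _ _
  · obtain ⟨w, hw⟩ := key (n + 1) (r := 2) ![x, y]
    have e1 := (hw 0 1).2.1
    have e2 := (hw 0 0).2.2.2 n (by omega)
    have e3 := (hw 1 1).2.2.2 n (by omega)
    change B.lt x y ↔ _ at e1
    change B.U n x ↔ _ at e2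
    change B.U n y ↔ _ at e3
    rw [e1, e2, e3]
    exact h0.ok.uu _ _ _
  · intro n ι _ M A hA a b z hz
    obtain ⟨r, ⟨e⟩⟩ := Finite.exists_equiv_fin ι
    let a' : Fin r → M := a ∘ e.symm
    let z' : Fin r → N := z ∘ e.symm
    let φ : LL.Sentence := ((dia n A a').imp (dia n A (Fin.snoc a' b : Fin (r + 1) → M)).ex).alls
    have h1 : @Sentence.Realize LL N0 B0.str φ := by
      let := B0.str
      refine BoundedFormula.realize_alls.2 fun xs => ?_
      rw [BoundedFormula.realize_imp, BoundedFormula.realize_ex]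
      intro h2
      obtain ⟨y, hy⟩ := h0.ext n _ M A hA a' b xs ((realize_dia a' _ _).1 h2)
      refine ⟨y, (realize_dia _ _ _).2 ?_⟩
      rw [snoc_up, snoc_up]
      exact hy.comp _
    have h2 := (h φ).1 h1
    let := B.str
    have h3 := BoundedFormula.realize_alls.1 h2 z'
    rw [BoundedFormula.realize_imp, BoundedFormula.realize_ex] at h3
    obtain ⟨y, hy⟩ := h3 ((realize_dia a' _ _).2 (hz.comp _))
    have h4 := (realize_dia _ _ _).1 hy
    refine ⟨y, ?_⟩
    have h5 := h4.comp (fun o : Option ι => o.elim (Fin.last r) (fun i => (e i).castSucc))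
    have e1 : ∀ {P : Type} (x : ι → P) (c : P), ex1 x c =
        (Fin.snoc (x ∘ e.symm) c : Fin (r + 1) → P) ∘
          (fun o : Option ι => o.elim (Fin.last r) (fun i => (e i).castSucc)) := by
      intro P x c
      funext o
      cases o with
      | none => simp [ex1]
      | some i => simp [ex1]
    rw [e1, e1]
    exact h5

end Pool.Agent.Q298.BE
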